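import Mathlib

/-!
# Bernstein sets for small families of large sets
-/

open Set Cardinal

namespace Pool.Agent.Q183.Games

lemma exists_two_new {X : Type} {κ : Cardinal} (hκ : ℵ₀ ≤ κ) (Q S : Set X) (hQ : κ ≤ #Q)
    (hS : #S < κ) : ∃ a ∈ Q, ∃ b ∈ Q, a ∉ S ∧ b ∉ S ∧ a ≠ b := by
  have h1 : (Q \ S).Nontrivial := by
    rw [← Set.not_subsingleton_iff]
    intro hsub
    have h2 : #(Q \ S : Set X) ≤ 1 := by
      rw [Cardinal.le_one_iff_subsingleton]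
      exact hsub.coe_sort
    have h3 : #Q ≤ #(Q \ S : Set X) + #S := by
      have : Q ⊆ (Q \ S) ∪ S := by
        intro x hx
        by_cases h : x ∈ S
        · exact Or.inr h
        · exact Or.inl ⟨hx, h⟩
      exact (mk_le_mk_of_subset this).trans (mk_union_le _ _)
    have h4 : #(Q \ S : Set X) + #S < κ :=
      add_lt_of_lt hκ (h2.trans_lt (one_lt_aleph0.trans_le hκ)) hS
    exact absurd (hQ.trans h3) (not_le.2 h4)
  obtain ⟨a, ha, b, hb, hab⟩ := h1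
  exact ⟨a, ha.1, b, hb.1, ha.2, hb.2, hab⟩

/-- Given at most `κ` sets of size at least `κ`, some set `B` and its complement meet them
all. -/
lemma exists_bernstein {X ι : Type} {κ : Cardinal} (hκ : ℵ₀ ≤ κ) (Q : ι → Set X)
    (hι : #ι ≤ κ) (hQ : ∀ i, κ ≤ #(Q i)) :
    ∃ B : Set X, ∀ i, (∃ y ∈ Q i, y ∈ B) ∧ (∃ y ∈ Q i, y ∉ B) := by
  classical
  rcases isEmpty_or_nonempty ι with hem | ⟨⟨i0⟩⟩
  · exact ⟨∅, fun i => (hem.false i).elim⟩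
  have : Nonempty X := by
    have h1 := hQ i0
    have h2 : (Q i0).Nonempty := by
      rw [← Set.nonempty_coe_sort, ← mk_ne_zero_iff]
      exact (lt_of_lt_of_le (aleph0_pos.trans_le hκ) h1).ne'
    exact ⟨h2.some⟩
  obtain ⟨r, wo, hr⟩ := exists_ord_eq ι
  have hseg : ∀ i, #{j // r j i} < κ := by
    intro i
    rw [← Ordinal.card_typein]
    exact (card_typein_lt i hr).trans_le hι
  let f : ι → X × X := wo.wf.fix fun i g =>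
    Classical.epsilon fun p : X × X => p.1 ∈ Q i ∧ p.2 ∈ Q i ∧ p.1 ≠ p.2 ∧
      ∀ j (hj : r j i), p.1 ≠ (g j hj).1 ∧ p.1 ≠ (g j hj).2 ∧ p.2 ≠ (g j hj).1 ∧
        p.2 ≠ (g j hj).2
  have hf : ∀ i, (f i).1 ∈ Q i ∧ (f i).2 ∈ Q i ∧ (f i).1 ≠ (f i).2 ∧
      ∀ j, r j i → (f i).1 ≠ (f j).1 ∧ (f i).1 ≠ (f j).2 ∧ (f i).2 ≠ (f j).1 ∧
        (f i).2 ≠ (f j).2 := by
    intro i
    have hfi : f i = Classical.epsilon fun p : X × X => p.1 ∈ Q i ∧ p.2 ∈ Q i ∧ p.1 ≠ p.2 ∧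
        ∀ j (_ : r j i), p.1 ≠ (f j).1 ∧ p.1 ≠ (f j).2 ∧ p.2 ≠ (f j).1 ∧ p.2 ≠ (f j).2 := by
      exact wo.wf.fix_eq _ i
    rw [hfi]
    apply Classical.epsilon_spec (p := fun p : X × X => p.1 ∈ Q i ∧ p.2 ∈ Q i ∧ p.1 ≠ p.2 ∧
        ∀ j (_ : r j i), p.1 ≠ (f j).1 ∧ p.1 ≠ (f j).2 ∧ p.2 ≠ (f j).1 ∧ p.2 ≠ (f j).2)
    set S : Set X := (range fun j : {j // r j i} => (f j).1) ∪
      (range fun j : {j // r j i} => (f j).2) with hS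
    have hSlt : #S < κ := by
      refine (mk_union_le _ _).trans_lt ?_
      exact add_lt_of_lt hκ (mk_range_le.trans_lt (hseg i)) (mk_range_le.trans_lt (hseg i))
    obtain ⟨a, ha, b, hb, haS, hbS, hab⟩ := exists_two_new hκ (Q i) S (hQ i) hSlt
    refine ⟨(a, b), ha, hb, hab, fun j hj => ⟨?_, ?_, ?_, ?_⟩⟩
    · rintro rfl; exact haS (Or.inl ⟨⟨j, hj⟩, rfl⟩)
    · rintro rfl; exact haS (Or.inr ⟨⟨j, hj⟩, rfl⟩)
    · rintro rfl; exact hbS (Or.inl ⟨⟨j, hj⟩, rfl⟩)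
    · rintro rfl; exact hbS (Or.inr ⟨⟨j, hj⟩, rfl⟩)
  refine ⟨range fun i => (f i).1, fun i => ⟨⟨_, (hf i).1, ⟨i, rfl⟩⟩, ⟨_, (hf i).2.1, ?_⟩⟩⟩
  rintro ⟨j, hj⟩
  have hj : (f j).1 = (f i).2 := hj
  rcases trichotomous_of r i j with h | h | h
  · exact ((hf j).2.2.2 i h).2.1 hj
  · rw [h] at hj; exact (hf j).2.2.1 hj
  · exact ((hf i).2.2.2 j h).2.2.1 hj.symm

end Pool.Agent.Q183.Games
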