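import Mathlib

/-!
# Hausdorff dimension in the space of binary sequences

Prefixes, cylinders, the net content, comparison with `dimH`, and the existence of subsets of
exact dimension in closed sets.
-/

open Set MeasureTheory Filter
open scoped ENNReal NNReal Topology

namespace Pool.Agent.Q183.Games

/-- Infinite binary sequences. -/
abbrev Seq : Type := ℕ → Bool

/-- The metric `d₂(x, y) = 2 ^ (- first difference)` (Mathlib's `PiNat` metric). -/
noncomputable instance instMetricSeq : MetricSpace Seq :=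
  PiNat.metricSpaceOfDiscreteUniformity (E := fun _ => Bool) (fun _ => rfl)

/-- The prefix of length `n`. -/
def pre (x : Seq) (n : ℕ) : List Bool := (List.range n).map x

/-- The cylinder of a node. -/
def cyl (w : List Bool) : Set Seq := {x | pre x w.length = w}

@[simp] lemma length_pre (x : Seq) (n : ℕ) : (pre x n).length = n := by simp [pre]

@[simp] lemma pre_zero (x : Seq) : pre x 0 = [] := by simp [pre]

lemma pre_succ (x : Seq) (n : ℕ) : pre x (n + 1) = pre x n ++ [x n] := by
  simp [pre, List.range_succ]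

lemma pre_eq_iff {x y : Seq} {n : ℕ} : pre x n = pre y n ↔ ∀ i < n, x i = y i := by
  simp [pre, List.map_inj_left]

lemma pre_prefix (x : Seq) {m n : ℕ} (h : m ≤ n) : pre x m <+: pre x n := by
  induction n, h using Nat.le_induction with
  | base => exact List.prefix_rfl
  | succ n _ ih => rw [pre_succ]; exact ih.trans (List.prefix_append _ _)

lemma pre_eq_of_le {x y : Seq} {m n : ℕ} (h : m ≤ n) (hxy : pre x n = pre y n) :
    pre x m = pre y m := by
  rw [pre_eq_iff] at hxy ⊢
  exact fun i hi => hxy i (lt_of_lt_of_le hi h)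

lemma pre_eq_of_prefix {x : Seq} {v w : List Bool} (h : v <+: w) (hx : pre x w.length = w) :
    pre x v.length = v := by
  have h1 := pre_prefix x h.length_le
  rw [hx] at h1
  exact List.IsPrefix.eq_of_length (List.prefix_of_prefix_length_le h1 h (by simp)) (by simp)

lemma mem_cyl {x : Seq} {w : List Bool} : x ∈ cyl w ↔ pre x w.length = w := Iff.rfl

lemma mem_cyl_pre (x : Seq) (n : ℕ) : x ∈ cyl (pre x n) := by simp [cyl]

lemma cyl_anti {v w : List Bool} (h : v <+: w) : cyl w ⊆ cyl v := fun _ hx =>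
  pre_eq_of_prefix h hx

@[simp] lemma cyl_nil : cyl [] = univ := by ext x; simp [cyl]

lemma cyl_append (u : List Bool) : cyl u = cyl (u ++ [false]) ∪ cyl (u ++ [true]) := by
  ext x
  constructor
  · intro hx
    have hx : pre x u.length = u := hx
    cases h : x u.length with
    | false => left; show pre x (u ++ [false]).length = _; simp [pre_succ, hx, h]
    | true => right; show pre x (u ++ [true]).length = _; simp [pre_succ, hx, h]
  · rintro (hx | hx)
    · exact cyl_anti (List.prefix_append _ _) hx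
    · exact cyl_anti (List.prefix_append _ _) hx

lemma pre_eq_iff_dist {x y : Seq} {n : ℕ} : pre x n = pre y n ↔ dist x y ≤ (1 / 2) ^ n := by
  rw [pre_eq_iff]
  exact PiNat.mem_cylinder_iff.symm.trans PiNat.mem_cylinder_iff_dist_le

lemma pre_eq_iff_edist {x y : Seq} {n : ℕ} :
    pre x n = pre y n ↔ edist x y ≤ (2⁻¹ : ℝ≥0∞) ^ n := by
  rw [pre_eq_iff_dist, edist_dist]
  have : (2⁻¹ : ℝ≥0∞) ^ n = ENNReal.ofReal ((1 / 2) ^ n) := by
    rw [ENNReal.ofReal_pow (by norm_num)]
    congr 1
    rw [one_div, ENNReal.ofReal_inv_of_pos (by norm_num)]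
    simp
  rw [this, ENNReal.ofReal_le_ofReal_iff (by positivity)]

lemma ediam_cyl_le (w : List Bool) : Metric.ediam (cyl w) ≤ (2⁻¹ : ℝ≥0∞) ^ w.length := by
  apply Metric.ediam_le
  intro x hx y hy
  rw [← pre_eq_iff_edist]
  exact hx.trans hy.symm

/-- A path following a choice function. -/
lemma exists_path (c : List Bool → Bool) : ∃ x : Seq, ∀ n, x n = c (pre x n) := by
  let u : ℕ → List Bool := fun n => Nat.rec [] (fun _ l => l ++ [c l]) n
  let x : Seq := fun n => c (u n)
  have h : ∀ n, pre x n = u n := by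
    intro n
    induction n with
    | zero => rw [pre_zero]; rfl
    | succ n ih =>
      rw [pre_succ, ih]
  exact ⟨x, fun n => by rw [h]⟩

/-! ### The dimension of the whole space -/

lemma dimH_univ_le : dimH (univ : Set Seq) ≤ 1 := by
  have h : μH[(1 : ℝ)] (univ : Set Seq) ≤ 1 := by
    refine (Measure.hausdorffMeasure_le_liminf_sum (β := ℕ) (ι := fun n => (Fin n → Bool))
      1 univ (l := atTop) (fun n => (2⁻¹ : ℝ≥0∞) ^ n) ?_
      (fun n v => {x : Seq | ∀ i : Fin n, x i = v i}) ?_ ?_).trans ?_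
    · exact ENNReal.tendsto_pow_atTop_nhds_zero_of_lt_one (by norm_num)
    · refine Eventually.of_forall fun n v => ?_
      apply Metric.ediam_le
      intro x hx y hy
      rw [← pre_eq_iff_edist, pre_eq_iff]
      intro i hi
      exact (hx ⟨i, hi⟩).trans (hy ⟨i, hi⟩).symm
    · refine Eventually.of_forall fun n x _ => ?_
      rw [mem_iUnion]
      exact ⟨fun i => x i, fun i => rfl⟩
    · refine liminf_le_of_le (by isBoundedDefault) ?_
      intro b hb
      obtain ⟨n, hn⟩ := hb.exists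
      refine hn.trans ?_
      calc ∑ v : Fin n → Bool, Metric.ediam {x : Seq | ∀ i : Fin n, x i = v i} ^ (1 : ℝ)
          ≤ ∑ v : Fin n → Bool, (2⁻¹ : ℝ≥0∞) ^ n := by
            apply Finset.sum_le_sum
            intro v _
            rw [ENNReal.rpow_one]
            apply Metric.ediam_le
            intro x hx y hy
            rw [← pre_eq_iff_edist, pre_eq_iff]
            intro i hi
            exact (hx ⟨i, hi⟩).trans (hy ⟨i, hi⟩).symm
        _ = 1 := by
            rw [Finset.sum_const, Finset.card_univ, Fintype.card_fun, Fintype.card_bool,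
              Fintype.card_fin, nsmul_eq_mul]
            push_cast
            rw [← mul_pow, ENNReal.mul_inv_cancel (by norm_num) (by norm_num), one_pow]
  have h2 : μH[((1 : ℝ≥0) : ℝ)] (univ : Set Seq) ≠ ∞ := by
    have : μH[((1 : ℝ≥0) : ℝ)] (univ : Set Seq) ≤ 1 := by simpa using h
    exact (this.trans_lt ENNReal.one_lt_top).ne
  simpa using dimH_le_of_hausdorffMeasure_ne_top h2

/-- A map that doubles the length of common prefixes has an image of dimension `≤ 1/2`. -/
lemma dimH_image_le_half {S : Set Seq} {f : Seq → Seq}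
    (h : ∀ x ∈ S, ∀ y ∈ S, ∀ k, pre x k = pre y k → pre (f x) (2 * k) = pre (f y) (2 * k)) :
    dimH (f '' S) ≤ 1 / 2 := by
  have hH : HolderOnWith 1 2 f S := by
    intro x hx y hy
    rw [ENNReal.coe_one, one_mul]
    rcases eq_or_ne x y with rfl | hne
    · simp
    · have hd : edist x y = (2⁻¹ : ℝ≥0∞) ^ (PiNat.firstDiff x y) := by
        rw [edist_dist]
        have : dist x y = (1 / 2 : ℝ) ^ PiNat.firstDiff x y := PiNat.dist_eq_of_ne hne
        rw [this, ENNReal.ofReal_pow (by norm_num), one_div,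
          ENNReal.ofReal_inv_of_pos (by norm_num)]
        simp
      have hp : pre x (PiNat.firstDiff x y) = pre y (PiNat.firstDiff x y) := by
        rw [pre_eq_iff_edist, hd]
      have := h x hx y hy _ hp
      rw [pre_eq_iff_edist] at this
      rw [hd]
      refine this.trans ?_
      rw [mul_comm, pow_mul]
      norm_num
  refine (hH.dimH_image_le (by norm_num)).trans ?_
  have h1 : dimH S ≤ 1 := (dimH_mono (subset_univ S)).trans dimH_univ_le
  calc dimH S / ((2 : ℝ≥0) : ℝ≥0∞) ≤ 1 / ((2 : ℝ≥0) : ℝ≥0∞) := by gcongr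
    _ = 1 / 2 := by norm_num

/-- A set in which the bits at one parity are determined by the previous ones. -/
lemma dimH_forced_le_half {A : Set Seq} {q : ℕ} (hq : q < 2)
    (h : ∀ x ∈ A, ∀ y ∈ A, ∀ n, n % 2 = q → pre x n = pre y n → x n = y n) :
    dimH A ≤ 1 / 2 := by
  let g : Seq → Seq := fun x k => x (2 * k + (1 - q))
  have key : ∀ x ∈ A, ∀ y ∈ A, ∀ k, pre (g x) k = pre (g y) k → ∀ j ≤ 2 * k, pre x j = pre y j := by
    intro x hx y hy k hk j
    induction j with
    | zero => intro _; simp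
    | succ j ih =>
      intro hj
      have hp := ih (by omega)
      rw [pre_succ, pre_succ, hp]
      have : x j = y j := by
        rcases eq_or_ne (j % 2) q with hjq | hjq
        · exact h x hx y hy j hjq hp
        · rw [pre_eq_iff] at hk
          have h1 := hk (j / 2) (by omega)
          have h2 : 2 * (j / 2) + (1 - q) = j := by omega
          simp only [g] at h1
          rwa [h2] at h1
      rw [this]
  have hinj : InjOn g A := by
    intro x hx y hy hxy
    funext n
    have h1 := key x hx y hy (n + 1) (by rw [hxy]) (n + 1) (by omega)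
    rw [pre_eq_iff] at h1
    exact h1 n (by omega)
  have hleft : LeftInvOn (Function.invFunOn g A) g A := hinj.leftInvOn_invFunOn
  have himg : (Function.invFunOn g A) '' (g '' A) = A := hleft.image_image
  rw [← himg]
  apply dimH_image_le_half
  rintro _ ⟨x, hx, rfl⟩ _ ⟨y, hy, rfl⟩ k hk
  rw [hleft hx, hleft hy]
  exact key x hx y hy k hk _ le_rfl

/-! ### Net content -/

/-- The weight `2 ^ (- s |w|)`. -/
noncomputable def wt (s : ℝ) (w : List Bool) : ℝ≥0∞ := (2⁻¹ : ℝ≥0∞) ^ (s * w.length)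

/-- Least weight of a cylinder containing `S`. -/
noncomputable def pm (s : ℝ) (S : Set Seq) : ℝ≥0∞ := ⨅ (w : List Bool) (_ : S ⊆ cyl w), wt s w

lemma wt_pos (s : ℝ) (w : List Bool) : 0 < wt s w :=
  ENNReal.rpow_pos (by norm_num) (by norm_num)

lemma tendsto_wt {s : ℝ} (hs : 0 < s) :
    Tendsto (fun k : ℕ => (2⁻¹ : ℝ≥0∞) ^ (s * (k : ℝ))) atTop (𝓝 0) := by
  have h1 : ∀ k : ℕ, (2⁻¹ : ℝ≥0∞) ^ (s * (k : ℝ)) = ((2⁻¹ : ℝ≥0∞) ^ s) ^ k := by
    intro k
    rw [ENNReal.rpow_mul, ENNReal.rpow_natCast]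
  simp only [h1]
  apply ENNReal.tendsto_pow_atTop_nhds_zero_of_lt_one
  exact ENNReal.rpow_lt_one (by norm_num) hs

lemma pm_subsingleton {s : ℝ} (hs : 0 < s) {S : Set Seq} (x : Seq) (hS : S ⊆ {x}) :
    pm s S = 0 := by
  have h : ∀ k : ℕ, pm s S ≤ (2⁻¹ : ℝ≥0∞) ^ (s * (k : ℝ)) := by
    intro k
    refine iInf₂_le_of_le (pre x k) ?_ ?_
    · intro y hy
      have : y = x := hS hy
      rw [this]; exact mem_cyl_pre x k
    · simp [wt]
  exact le_antisymm (ge_of_tendsto' (tendsto_wt hs) h) zero_le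

/-- The net content, as an outer measure. -/
noncomputable def content (s : ℝ) (hs : 0 < s) : OuterMeasure Seq :=
  OuterMeasure.ofFunction (pm s) (pm_subsingleton hs (fun _ => false) (empty_subset _))

lemma content_cyl_le {s : ℝ} (hs : 0 < s) (w : List Bool) : content s hs (cyl w) ≤ wt s w :=
  (OuterMeasure.ofFunction_le _).trans (iInf₂_le_of_le w Subset.rfl le_rfl)

lemma exists_cover {s : ℝ} (hs : 0 < s) {A : Set Seq} {c : ℝ≥0∞} (h : content s hs A < c) :
    ∃ w : ℕ → List Bool, A ⊆ ⋃ n, cyl (w n) ∧ ∑' n, wt s (w n) < c := by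
  unfold content at h
  rw [OuterMeasure.ofFunction_apply] at h
  simp only [iInf_lt_iff] at h
  obtain ⟨t, ht, hlt⟩ := h
  obtain ⟨ε, hε, hεsum⟩ := ENNReal.exists_pos_sum_of_countable' (tsub_pos_of_lt hlt).ne' ℕ
  have hfin : ∀ n, pm s (t n) < pm s (t n) + ε n := by
    intro n
    refine ENNReal.lt_add_right ?_ (hε n).ne'
    have h1 : pm s (t n) ≤ ∑' n, pm s (t n) := ENNReal.le_tsum n
    exact (h1.trans_lt hlt).ne_top
  have : ∀ n, ∃ w, t n ⊆ cyl w ∧ wt s w < pm s (t n) + ε n := by
    intro n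
    have h1 := hfin n
    conv_lhs at h1 => rw [pm]
    simp only [iInf_lt_iff] at h1
    obtain ⟨w, hw, hlt⟩ := h1
    exact ⟨w, hw, hlt⟩
  choose w hw hwlt using this
  refine ⟨w, ht.trans (iUnion_mono hw), ?_⟩
  calc ∑' n, wt s (w n) ≤ ∑' n, (pm s (t n) + ε n) := ENNReal.tsum_le_tsum fun n => (hwlt n).le
    _ = ∑' n, pm s (t n) + ∑' n, ε n := ENNReal.tsum_add
    _ < ∑' n, pm s (t n) + (c - ∑' n, pm s (t n)) := by
        apply ENNReal.add_lt_add_left hlt.ne_top hεsum
    _ = c := add_tsub_cancel_of_le hlt.le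

/-- Zero content bounds the dimension. -/
lemma dimH_le_of_content_zero {s : ℝ≥0} (hs : 0 < (s : ℝ)) {A : Set Seq}
    (h : content s hs A = 0) : dimH A ≤ s := by
  apply dimH_le_of_hausdorffMeasure_ne_top
  have hex : ∀ k : ℕ, ∃ w : ℕ → List Bool, A ⊆ ⋃ n, cyl (w n) ∧
      ∑' n, wt s (w n) < (2⁻¹ : ℝ≥0∞) ^ ((s : ℝ) * (k : ℝ)) := fun k =>
    exists_cover hs (by rw [h]; exact ENNReal.rpow_pos (by norm_num) (by norm_num))
  choose w hw hlt using hex
  have hlen : ∀ k n, k ≤ (w k n).length := by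
    intro k n
    by_contra hk
    push Not at hk
    have h1 : wt s (w k n) < (2⁻¹ : ℝ≥0∞) ^ ((s : ℝ) * (k : ℝ)) :=
      (ENNReal.le_tsum n).trans_lt (hlt k)
    have h2 : (2⁻¹ : ℝ≥0∞) ^ ((s : ℝ) * (k : ℝ)) ≤ wt s (w k n) := by
      unfold wt
      apply ENNReal.rpow_le_rpow_of_exponent_ge (by norm_num)
      have : ((w k n).length : ℝ) ≤ k := by exact_mod_cast hk.le
      gcongr
    exact absurd h1 (not_lt.2 h2)
  have hle : μH[(s : ℝ)] A ≤ 0 := by
    refine (Measure.hausdorffMeasure_le_liminf_tsum (β := ℕ) (ι := fun _ => ℕ)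
      s A (l := atTop) (fun n => (2⁻¹ : ℝ≥0∞) ^ n) ?_ (fun k n => cyl (w k n)) ?_ ?_).trans ?_
    · exact ENNReal.tendsto_pow_atTop_nhds_zero_of_lt_one (by norm_num)
    · refine Eventually.of_forall fun k n => (ediam_cyl_le _).trans ?_
      exact pow_le_pow_right_of_le_one' (by norm_num) (hlen k n)
    · exact Eventually.of_forall hw
    · have h1 : ∀ k, ∑' n, Metric.ediam (cyl (w k n)) ^ (s : ℝ) ≤
          (2⁻¹ : ℝ≥0∞) ^ ((s : ℝ) * (k : ℝ)) := by
        intro k
        refine le_trans (ENNReal.tsum_le_tsum fun n => ?_) (hlt k).le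
        unfold wt
        rw [mul_comm, ENNReal.rpow_mul, ENNReal.rpow_natCast]
        exact ENNReal.rpow_le_rpow (ediam_cyl_le _) hs.le
      have h2 := tendsto_of_tendsto_of_tendsto_of_le_of_le tendsto_const_nhds (tendsto_wt hs)
        (fun _ => zero_le) h1
      rw [h2.liminf_eq]
  rw [le_antisymm hle zero_le]
  exact ENNReal.zero_ne_top

lemma content_pos_of_lt_dimH {s : ℝ≥0} (hs : 0 < (s : ℝ)) {A : Set Seq}
    (h : (s : ℝ≥0∞) < dimH A) : 0 < content s hs A := by
  rw [pos_iff_ne_zero]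
  intro h0
  exact absurd h (not_lt.2 (dimH_le_of_content_zero hs h0))

/-- Positive content gives a lower bound for the dimension. -/
lemma le_dimH_of_content_pos {s : ℝ≥0} (hs : 0 < (s : ℝ)) {A : Set Seq}
    (h : 0 < content s hs A) : (s : ℝ≥0∞) ≤ dimH A := by
  by_contra hlt
  push Not at hlt
  have h0 := hausdorffMeasure_of_dimH_lt hlt
  rw [Measure.hausdorffMeasure_apply] at h0
  have h1 : (⨅ (t : ℕ → Set Seq) (_ : A ⊆ ⋃ n, t n) (_ : ∀ n, Metric.ediam (t n) ≤ 1),
      ∑' n, ⨆ _ : (t n).Nonempty, Metric.ediam (t n) ^ (s : ℝ)) = 0 := by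
    refine le_antisymm ?_ zero_le
    rw [← h0]
    exact le_iSup₂ (f := fun (r : ℝ≥0∞) (_ : 0 < r) => ⨅ (t : ℕ → Set Seq) (_ : A ⊆ ⋃ n, t n)
      (_ : ∀ n, Metric.ediam (t n) ≤ r),
      ∑' n, ⨆ _ : (t n).Nonempty, Metric.ediam (t n) ^ (s : ℝ)) 1 one_pos
  have h2 : ∀ ε : ℝ≥0∞, 0 < ε → content s hs A ≤ 2 ^ (s : ℝ) * ε := by
    intro ε hε
    rw [← h1] at hε
    simp only [iInf_lt_iff] at hε
    obtain ⟨t, ht, hd, hlt⟩ := hε
    have h3 : ∀ n, content s hs (t n) ≤
        2 ^ (s : ℝ) * ⨆ _ : (t n).Nonempty, Metric.ediam (t n) ^ (s : ℝ) := by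
      intro n
      rcases (t n).eq_empty_or_nonempty with hn | hn
      · rw [hn]; simp
      · obtain ⟨x, hx⟩ := hn
        rw [iSup_pos ⟨x, hx⟩]
        refine (OuterMeasure.ofFunction_le _).trans ?_
        rcases eq_or_ne (Metric.ediam (t n)) 0 with h0 | h0
        · rw [pm_subsingleton hs x]
          · exact zero_le
          · intro y hy
            exact (Metric.ediam_eq_zero_iff.1 h0) hy hx
        · obtain ⟨k, hk1, hk2⟩ : ∃ k : ℕ, Metric.ediam (t n) ≤ (2⁻¹ : ℝ≥0∞) ^ k ∧
              (2⁻¹ : ℝ≥0∞) ^ k ≤ 2 * Metric.ediam (t n) := by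
            classical
            have hex : ∃ k : ℕ, (2⁻¹ : ℝ≥0∞) ^ k < Metric.ediam (t n) := by
              have := (ENNReal.tendsto_pow_atTop_nhds_zero_of_lt_one
                (by norm_num : (2⁻¹ : ℝ≥0∞) < 1)).eventually (gt_mem_nhds (pos_iff_ne_zero.2 h0))
              exact this.exists
            have hs1 := Nat.find_spec hex
            have hmin := fun m hm => Nat.find_min hex (m := m) hm
            rcases Nat.eq_zero_or_pos (Nat.find hex) with hz | hz
            · rw [hz, pow_zero] at hs1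
              exact absurd (hd n) (not_le.2 hs1)
            · refine ⟨Nat.find hex - 1, not_lt.1 (hmin _ (by omega)), ?_⟩
              have h4 : Nat.find hex = (Nat.find hex - 1) + 1 := by omega
              rw [h4, pow_succ] at hs1
              calc (2⁻¹ : ℝ≥0∞) ^ (Nat.find hex - 1)
                  = 2 * ((2⁻¹ : ℝ≥0∞) ^ (Nat.find hex - 1) * 2⁻¹) := by
                    rw [mul_comm, mul_assoc, ENNReal.inv_mul_cancel (by norm_num) (by norm_num),
                      mul_one]
                _ ≤ 2 * Metric.ediam (t n) := by gcongr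
          refine iInf₂_le_of_le (pre x k) ?_ ?_
          · intro y hy
            rw [mem_cyl, length_pre, pre_eq_iff_edist]
            exact (Metric.edist_le_ediam_of_mem hy hx).trans hk1
          · unfold wt
            rw [length_pre, mul_comm, ENNReal.rpow_mul, ENNReal.rpow_natCast,
              ← ENNReal.mul_rpow_of_nonneg _ _ hs.le]
            exact ENNReal.rpow_le_rpow hk2 hs.le
    calc content s hs A ≤ content s hs (⋃ n, t n) := measure_mono ht
      _ ≤ ∑' n, content s hs (t n) := measure_iUnion_le _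
      _ ≤ ∑' n, 2 ^ (s : ℝ) * ⨆ _ : (t n).Nonempty, Metric.ediam (t n) ^ (s : ℝ) :=
        ENNReal.tsum_le_tsum h3
      _ = 2 ^ (s : ℝ) * ∑' n, ⨆ _ : (t n).Nonempty, Metric.ediam (t n) ^ (s : ℝ) :=
        ENNReal.tsum_mul_left
      _ ≤ 2 ^ (s : ℝ) * ε := by gcongr
  have h5 : content s hs A ≤ 0 := by
    have hC : (2 : ℝ≥0∞) ^ (s : ℝ) ≠ ∞ := ENNReal.rpow_ne_top_of_nonneg hs.le (by norm_num)
    have hC0 : (2 : ℝ≥0∞) ^ (s : ℝ) ≠ 0 := (ENNReal.rpow_pos (by norm_num) (by norm_num)).ne'
    apply le_of_forall_pos_le_add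
    intro ε hε
    rw [zero_add]
    have := h2 (((2 : ℝ≥0∞) ^ (s : ℝ))⁻¹ * ε) (by
      apply pos_iff_ne_zero.2
      exact mul_ne_zero (ENNReal.inv_ne_zero.2 hC) hε.ne')
    rwa [← mul_assoc, ENNReal.mul_inv_cancel hC0 hC, one_mul] at this
  exact absurd h (not_lt.2 h5)

end Pool.Agent.Q183.Games
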