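import Pool.Agent.Q183.Games.CantorDim

/-!
# Subsets of exact Hausdorff dimension

The forcing lemma (at the levels of one residue class, always take the child of larger net
content) and the existence of subsets of exact dimension in closed sets.
-/

open Set MeasureTheory Filter
open scoped ENNReal NNReal Topology

namespace Pool.Agent.Q183.Games

/-- Closed sets, described by prefixes. -/
def PClosed (K : Set Seq) : Prop :=
  ∀ x : Seq, (∀ n, ∃ z ∈ K, pre z n = pre x n) → x ∈ K

lemma PClosed.inter_cyl {K : Set Seq} (hK : PClosed K) (u : List Bool) : PClosed (K ∩ cyl u) := by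
  intro x hx
  constructor
  · apply hK
    intro n
    obtain ⟨z, hz, h⟩ := hx n
    exact ⟨z, hz.1, h⟩
  · obtain ⟨z, hz, h⟩ := hx u.length
    exact h.symm.trans hz.2

/-- The number of `i < n` with `i % N = r`. -/
def cnt (N r n : ℕ) : ℕ := (n + (N - 1 - r)) / N

lemma cnt_zero {N r : ℕ} (hr : r < N) : cnt N r 0 = 0 := by
  unfold cnt
  apply Nat.div_eq_of_lt
  omega

lemma cnt_succ {N r : ℕ} (hr : r < N) (n : ℕ) :
    cnt N r (n + 1) = cnt N r n + (if n % N = r then 1 else 0) := by
  unfold cnt
  have h1 : n + 1 + (N - 1 - r) = (n + (N - 1 - r)) + 1 := by omega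
  rw [h1, Nat.succ_div]
  congr 1
  have h2 : N ∣ n + (N - 1 - r) + 1 ↔ n % N = r := by
    have h3 : n + (N - 1 - r) + 1 = n + (N - r) := by omega
    rw [h3, Nat.dvd_iff_mod_eq_zero, Nat.add_mod]
    rcases Nat.eq_zero_or_pos r with h0 | h0
    · subst h0
      simp
    · have h4 : (N - r) % N = N - r := Nat.mod_eq_of_lt (by omega)
      rw [h4]
      have h5 : n % N < N := Nat.mod_lt _ (by omega)
      constructor
      · intro h
        rcases lt_or_ge (n % N + (N - r)) N with h6 | h6
        · rw [Nat.mod_eq_of_lt h6] at h; omega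
        · rw [Nat.mod_eq_sub_mod h6, Nat.mod_eq_of_lt (by omega)] at h; omega
      · intro h
        rw [h]
        have : r + (N - r) = N := by omega
        rw [this, Nat.mod_self]
  simp only [h2]

lemma cnt_le {N r : ℕ} (hr : r < N) (n : ℕ) : (cnt N r n : ℝ) ≤ n / N + 1 := by
  have hN : (0 : ℝ) < N := by exact_mod_cast (by omega : 0 < N)
  unfold cnt
  calc (((n + (N - 1 - r)) / N : ℕ) : ℝ) ≤ ((n + (N - 1 - r) : ℕ) : ℝ) / N := Nat.cast_div_le
    _ ≤ ((n + N : ℕ) : ℝ) / N := by
      gcongr
      omega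
    _ = n / N + 1 := by
      push_cast
      rw [add_div, div_self hN.ne']

/-- **Forcing lemma.** -/
lemma forcing {K : Set Seq} (hK : PClosed K) {δ δ' : ℝ≥0} {N r : ℕ} (hr : r < N)
    (hδ' : 0 < (δ' : ℝ)) (hδ : (δ : ℝ) = δ' + 1 / N) (hdim : (δ : ℝ≥0∞) < dimH K) :
    ∃ K' ⊆ K, PClosed K' ∧ (∀ x ∈ K', ∀ y ∈ K', ∀ n, n % N = r → pre x n = pre y n → x n = y n) ∧
      (δ' : ℝ≥0∞) ≤ dimH K' := by
  classical
  have hNpos : (0 : ℝ) < N := by exact_mod_cast (by omega : 0 < N)
  have hδpos : 0 < (δ : ℝ) := by rw [hδ]; positivity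
  set m : OuterMeasure Seq := content δ hδpos with hm
  have hmK : 0 < m K := content_pos_of_lt_dimH hδpos hdim
  -- the choice of the larger child
  let β : List Bool → Bool := fun v =>
    decide (m (K ∩ cyl (v ++ [false])) ≤ m (K ∩ cyl (v ++ [true])))
  have hsplit : ∀ v, m (K ∩ cyl v) ≤ m (K ∩ cyl (v ++ [false])) + m (K ∩ cyl (v ++ [true])) := by
    intro v
    rw [cyl_append v, inter_union_distrib_left]
    exact measure_union_le _ _
  have hβ : ∀ v, m (K ∩ cyl v) ≤ 2 * m (K ∩ cyl (v ++ [β v])) := by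
    intro v
    refine (hsplit v).trans ?_
    by_cases h : m (K ∩ cyl (v ++ [false])) ≤ m (K ∩ cyl (v ++ [true]))
    · have : β v = true := by simp [β, h]
      rw [this, two_mul]
      gcongr
    · have : β v = false := by simp [β, h]
      rw [this, two_mul]
      exact add_le_add le_rfl (not_le.1 h).le
  set K' : Set Seq := {x ∈ K | ∀ n, n % N = r → x n = β (pre x n)} with hK'
  refine ⟨K', fun x hx => hx.1, ?_, ?_, ?_⟩
  · intro x hx
    refine ⟨hK x fun n => ?_, fun n hn => ?_⟩
    · obtain ⟨z, hz, h⟩ := hx n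
      exact ⟨z, hz.1, h⟩
    · obtain ⟨z, hz, h⟩ := hx (n + 1)
      have h1 := hz.2 n hn
      have h2 : pre z n = pre x n := pre_eq_of_le (Nat.le_succ n) h
      rw [pre_eq_iff] at h
      rw [← h n (Nat.lt_succ_self n), h1, h2]
  · intro x hx y hy n hn hxy
    rw [hx.2 n hn, hy.2 n hn, hxy]
  · -- every cover of `K'` is expensive
    have hcover : ∀ w : ℕ → List Bool, K' ⊆ ⋃ n, cyl (w n) →
        m K ≤ ∑' n, wt δ (w n) * 2 ^ (cnt N r (w n).length) := by
      intro w hw
      by_contra hlt
      push Not at hlt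
      let g : ℕ → ℝ≥0∞ := fun n => wt δ (w n) * 2 ^ (cnt N r (w n).length)
      let S : List Bool → ℝ≥0∞ := fun u => ∑' n, if u <+: w n then g n else 0
      let Bad : List Bool → Prop := fun u => S u < 2 ^ (cnt N r u.length) * m (K ∩ cyl u)
      have hSsplit : ∀ u, S (u ++ [false]) + S (u ++ [true]) ≤ S u := by
        intro u
        simp only [S]
        rw [← ENNReal.tsum_add]
        apply ENNReal.tsum_le_tsum
        intro n
        by_cases h1 : (u ++ [false]) <+: w n
        · have h2 : ¬ (u ++ [true]) <+: w n := by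
            intro h2
            have := List.IsPrefix.eq_of_length (List.prefix_of_prefix_length_le h1 h2 (by simp))
              (by simp)
            simp at this
          have h3 : u <+: w n := (List.prefix_append _ _).trans h1
          simp [h1, h2, h3]
        · by_cases h2 : (u ++ [true]) <+: w n
          · have h3 : u <+: w n := (List.prefix_append _ _).trans h2
            simp [h1, h2, h3]
          · simp [h1, h2]
      have hroot : Bad [] := by
        simp only [Bad, S, List.nil_prefix, if_true, List.length_nil, cnt_zero hr, pow_zero,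
          one_mul, cyl_nil, inter_univ]
        exact hlt
      have hstep : ∀ u, Bad u → ∃ b, Bad (u ++ [b]) ∧ (u.length % N = r → b = β u) := by
        intro u hu
        by_cases hur : u.length % N = r
        · refine ⟨β u, ?_, fun _ => rfl⟩
          by_contra hnb
          simp only [Bad, not_lt, List.length_append, List.length_singleton,
            cnt_succ hr, hur, if_true] at hnb hu
          have h1 : S (u ++ [β u]) ≤ S u := by
            refine le_trans ?_ (hSsplit u)
            cases β u
            · exact le_self_add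
            · exact le_add_self
          have h2 : 2 ^ cnt N r u.length * m (K ∩ cyl u) ≤
              2 ^ (cnt N r u.length + 1) * m (K ∩ cyl (u ++ [β u])) := by
            rw [pow_succ, mul_assoc]
            gcongr
            exact hβ u
          exact absurd hu (not_lt.2 (h2.trans (hnb.trans h1)))
        · by_contra hnb
          push Not at hnb
          have h1 : ∀ b, ¬ Bad (u ++ [b]) := fun b hb => (hnb b hb).1 |> fun h => hur h
          have h2 := h1 false
          have h3 := h1 true
          simp only [Bad, not_lt, List.length_append, List.length_singleton,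
            cnt_succ hr, hur, if_false, add_zero] at h2 h3 hu
          have h4 : 2 ^ cnt N r u.length * m (K ∩ cyl u) ≤ S u := by
            refine le_trans ?_ (hSsplit u)
            refine le_trans ?_ (add_le_add h2 h3)
            rw [← mul_add]
            gcongr
            exact hsplit u
          exact absurd hu (not_lt.2 h4)
      have hnotmem : ∀ u, Bad u → ∀ n, w n ≠ u := by
        intro u hu n hn
        have h1 : g n ≤ S u := by
          have : (if u <+: w n then g n else 0) = g n := by rw [hn]; simp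
          rw [← this]
          exact ENNReal.le_tsum (f := fun n => if u <+: w n then g n else 0) n
        have h2 : 2 ^ (cnt N r u.length) * m (K ∩ cyl u) ≤ g n := by
          simp only [g]
          rw [hn, mul_comm]
          gcongr
          exact (measure_mono inter_subset_right).trans (content_cyl_le hδpos u)
        exact absurd hu (not_lt.2 (h2.trans h1))
      choose! c hc using hstep
      obtain ⟨x, hx⟩ := exists_path c
      have hbad : ∀ n, Bad (pre x n) := by
        intro n
        induction n with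
        | zero => rw [pre_zero]; exact hroot
        | succ n ih =>
          rw [pre_succ, hx n]
          exact (hc _ ih).1
      have hxK : x ∈ K := by
        apply hK
        intro n
        have h1 : 0 < m (K ∩ cyl (pre x n)) := by
          rw [pos_iff_ne_zero]
          intro h0
          have := hbad n
          simp only [Bad, h0, mul_zero] at this
          exact absurd this (not_lt.2 zero_le)
        have h2 : (K ∩ cyl (pre x n)).Nonempty := by
          rw [nonempty_iff_ne_empty]
          intro h0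
          rw [h0, measure_empty] at h1
          exact absurd h1 (lt_irrefl _)
        obtain ⟨z, hz, hz2⟩ := h2
        exact ⟨z, hz, by simpa [mem_cyl] using hz2⟩
      have hxK' : x ∈ K' := by
        refine ⟨hxK, fun n hn => ?_⟩
        rw [hx n]
        exact (hc _ (hbad n)).2 (by rw [length_pre]; exact hn)
      obtain ⟨n, hn⟩ := mem_iUnion.1 (hw hxK')
      exact hnotmem _ (hbad (w n).length) n hn.symm
    -- compare with the content of exponent `δ'`
    have hpos : 0 < content δ' hδ' K' := by
      have h1 : m K ≤ 2 * content δ' hδ' K' := by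
        apply le_of_forall_gt_imp_ge_of_dense
        intro c hc
        have h2 : content δ' hδ' K' < c / 2 := by
          rw [ENNReal.lt_div_iff_mul_lt (by norm_num) (by norm_num), mul_comm]
          exact hc
        obtain ⟨w, hw, hlt⟩ := exists_cover hδ' h2
        refine (hcover w hw).trans ?_
        calc ∑' n, wt δ (w n) * 2 ^ (cnt N r (w n).length)
            ≤ ∑' n, 2 * wt δ' (w n) := by
              apply ENNReal.tsum_le_tsum
              intro n
              unfold wt
              have e1 : (2 : ℝ≥0∞) ^ (cnt N r (w n).length) =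
                  (2 : ℝ≥0∞) ^ ((cnt N r (w n).length : ℕ) : ℝ) := (ENNReal.rpow_natCast _ _).symm
              have e2 : ∀ t : ℝ, (2⁻¹ : ℝ≥0∞) ^ t = (2 : ℝ≥0∞) ^ (-t) := by
                intro t
                rw [ENNReal.inv_rpow, ENNReal.rpow_neg]
              have e3 : (2 : ℝ≥0∞) = 2 ^ (1 : ℝ) := by simp
              rw [e1, e2, e2, ← ENNReal.rpow_add _ _ (by norm_num) (by norm_num)]
              conv_rhs => rw [e3]
              rw [← ENNReal.rpow_mul, one_mul, ← ENNReal.rpow_add _ _ (by norm_num) (by norm_num)]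
              apply ENNReal.rpow_le_rpow_of_exponent_le (by norm_num)
              have h5 := cnt_le hr (w n).length
              rw [hδ]
              have : ((w n).length : ℝ) / N = 1 / N * (w n).length := by ring
              nlinarith
          _ = 2 * ∑' n, wt δ' (w n) := ENNReal.tsum_mul_left
          _ ≤ 2 * (c / 2) := by gcongr
          _ = c := ENNReal.mul_div_cancel (by norm_num) (by norm_num)
      rw [pos_iff_ne_zero]
      intro h0
      rw [h0, mul_zero] at h1
      exact absurd hmK (not_lt.2 h1)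
    exact le_dimH_of_content_pos hδ' hpos

lemma exists_window {K : Set Seq} (hK : PClosed K) {δ δ' : ℝ≥0} {N : ℕ} (hN : 0 < N)
    (hδ' : 0 < (δ' : ℝ)) (hδ : (δ : ℝ) = δ' + 1 / N) (hdim : (δ : ℝ≥0∞) < dimH K) :
    ∃ E ⊆ K, (δ' : ℝ≥0∞) ≤ dimH E ∧ dimH E ≤ δ := by
  by_contra hno
  have key : ∀ r ≤ N, ∃ L ⊆ K, PClosed L ∧ (δ : ℝ≥0∞) < dimH L ∧
      ∀ x ∈ L, ∀ y ∈ L, ∀ n, n % N < r → pre x n = pre y n → x n = y n := by
    intro r
    induction r with
    | zero => intro _; exact ⟨K, Subset.rfl, hK, hdim, fun x _ y _ n hn => absurd hn (by omega)⟩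
    | succ r ih =>
      intro hr
      obtain ⟨L, hLK, hLc, hLd, hLf⟩ := ih (by omega)
      obtain ⟨L', hL'L, hc', hf', hd'⟩ := forcing hLc (by omega : r < N) hδ' hδ hLd
      refine ⟨L', hL'L.trans hLK, hc', ?_, ?_⟩
      · by_contra hle
        exact hno ⟨L', hL'L.trans hLK, hd', not_lt.1 hle⟩
      · intro x hx y hy n hn hxy
        rcases Nat.lt_succ_iff_lt_or_eq.1 hn with h | h
        · exact hLf x (hL'L hx) y (hL'L hy) n h hxy
        · exact hf' x hx y hy n h hxy
  obtain ⟨L, hLK, hLc, hLd, hLf⟩ := key N le_rfl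
  have hsub : L.Subsingleton := by
    intro x hx y hy
    have h : ∀ n, pre x n = pre y n := by
      intro n
      induction n with
      | zero => simp
      | succ n ih =>
        rw [pre_succ, pre_succ, ih, hLf x hx y hy n (Nat.mod_lt _ hN) ih]
    funext n
    have h1 := h (n + 1)
    rw [pre_eq_iff] at h1
    exact h1 n (Nat.lt_succ_self n)
  rw [dimH_subsingleton hsub] at hLd
  exact absurd hLd (not_lt.2 zero_le)

/-- A closed set contains subsets of every smaller positive dimension. -/
lemma exists_exact {K : Set Seq} (hK : PClosed K) {δ : ℝ≥0} (hδ : 0 < δ)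
    (hdim : (δ : ℝ≥0∞) < dimH K) : ∃ E ⊆ K, dimH E = δ := by
  have hδ0 : (0 : ℝ) < δ := by exact_mod_cast hδ
  obtain ⟨N₀, hN₀⟩ := exists_nat_one_div_lt hδ0
  have hex : ∀ k : ℕ, ∃ E ⊆ K, ENNReal.ofReal ((δ : ℝ) - 1 / ((N₀ + 1 + k : ℕ) : ℝ)) ≤ dimH E ∧
      dimH E ≤ δ := by
    intro k
    have hk : 1 / ((N₀ + 1 + k : ℕ) : ℝ) < δ := by
      refine lt_of_le_of_lt ?_ hN₀
      push_cast
      apply one_div_le_one_div_of_le (by positivity)
      linarith [(Nat.cast_nonneg k : (0 : ℝ) ≤ k)]
    set δ' : ℝ≥0 := ⟨(δ : ℝ) - 1 / ((N₀ + 1 + k : ℕ) : ℝ), by linarith⟩ with hδ'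
    have h1 : (0 : ℝ) < δ' := by
      show (0 : ℝ) < (δ : ℝ) - 1 / ((N₀ + 1 + k : ℕ) : ℝ)
      linarith
    have h2 : (δ : ℝ) = δ' + 1 / ((N₀ + 1 + k : ℕ) : ℝ) := by
      show (δ : ℝ) = ((δ : ℝ) - 1 / ((N₀ + 1 + k : ℕ) : ℝ)) + 1 / ((N₀ + 1 + k : ℕ) : ℝ)
      ring
    obtain ⟨E, hE, h3, h4⟩ := exists_window hK (by omega) h1 h2 hdim
    refine ⟨E, hE, ?_, h4⟩
    refine le_trans ?_ h3
    rw [ENNReal.ofReal_eq_coe_nnreal (by linarith : 0 ≤ (δ : ℝ) - 1 / ((N₀ + 1 + k : ℕ) : ℝ))]
    exact le_rfl
  choose E hE h1 h2 using hex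
  refine ⟨⋃ k, E k, iUnion_subset hE, ?_⟩
  rw [dimH_iUnion]
  apply le_antisymm (iSup_le h2)
  have hlim : Tendsto (fun k : ℕ => ENNReal.ofReal ((δ : ℝ) - 1 / ((N₀ + 1 + k : ℕ) : ℝ))) atTop
      (𝓝 (δ : ℝ≥0∞)) := by
    have h3 : Tendsto (fun k : ℕ => (δ : ℝ) - 1 / ((N₀ + 1 + k : ℕ) : ℝ)) atTop
        (𝓝 ((δ : ℝ) - 0)) := by
      apply Tendsto.const_sub
      have h4 : Tendsto (fun k : ℕ => 1 / ((k : ℕ) : ℝ)) atTop (𝓝 0) :=
        tendsto_one_div_atTop_nhds_zero_nat
      have h5 : Tendsto (fun k : ℕ => N₀ + 1 + k) atTop atTop :=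
        tendsto_atTop_mono (fun k => (by omega : k ≤ N₀ + 1 + k)) tendsto_id
      exact h4.comp h5
    rw [sub_zero] at h3
    have h6 := ENNReal.tendsto_ofReal h3
    rwa [ENNReal.ofReal_coe_nnreal] at h6
  exact le_of_tendsto' hlim fun k => (h1 k).trans (le_iSup (fun k => dimH (E k)) k)

/-- Subsets of exact dimension off a closed set of dimension `≤ 1/2`. -/
lemma exists_exact_diff {K Z : Set Seq} (hK : PClosed K) (hZ : PClosed Z)
    (hZd : dimH Z ≤ 1 / 2) (hKd : 1 / 2 < dimH K) {δ : ℝ≥0∞} (h1 : 1 / 2 ≤ δ)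
    (h2 : δ ≤ dimH K) : ∃ E ⊆ K \ Z, dimH E = δ := by
  have hdiff : dimH (K \ Z) = dimH K := by
    apply le_antisymm (dimH_mono sdiff_subset)
    have h3 : dimH K ≤ max (dimH (K \ Z)) (dimH Z) := by
      rw [← dimH_union]
      apply dimH_mono
      intro x hx
      by_cases hxZ : x ∈ Z
      · exact Or.inr hxZ
      · exact Or.inl ⟨hx, hxZ⟩
    rcases le_max_iff.1 h3 with h | h
    · exact h
    · exact absurd (h.trans hZd) (not_le.2 hKd)
  rcases eq_or_lt_of_le h2 with h | h
  · exact ⟨K \ Z, Subset.rfl, by rw [hdiff, h]⟩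
  · have hδtop : δ ≠ ∞ := (h.trans_le le_top).ne
    lift δ to ℝ≥0 using hδtop
    -- the complement of `Z` is a union of cylinders
    have hun : K \ Z ⊆ ⋃ u ∈ {u : List Bool | cyl u ∩ Z = ∅}, (K ∩ cyl u) := by
      intro x hx
      have : ∃ n, ∀ z ∈ Z, pre z n ≠ pre x n := by
        by_contra hno
        push Not at hno
        exact hx.2 (hZ x hno)
      obtain ⟨n, hn⟩ := this
      simp only [mem_iUnion]
      refine ⟨pre x n, ?_, hx.1, mem_cyl_pre x n⟩
      show cyl (pre x n) ∩ Z = ∅
      rw [eq_empty_iff_forall_notMem]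
      rintro z ⟨hz1, hz2⟩
      exact hn z hz2 (by simpa [mem_cyl] using hz1)
    have h3 : (δ : ℝ≥0∞) < ⨆ u ∈ {u : List Bool | cyl u ∩ Z = ∅}, dimH (K ∩ cyl u) := by
      rw [← dimH_bUnion (Set.to_countable _)]
      refine lt_of_lt_of_le h ?_
      rw [← hdiff]
      exact dimH_mono hun
    simp only [lt_iSup_iff] at h3
    obtain ⟨u, hu, hlt⟩ := h3
    have hδ0 : 0 < δ := by
      have : (0 : ℝ≥0∞) < δ := lt_of_lt_of_le (by norm_num) h1
      exact_mod_cast this
    obtain ⟨E, hE, hEd⟩ := exists_exact (hK.inter_cyl u) hδ0 hlt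
    refine ⟨E, fun x hx => ⟨(hE hx).1, fun hxZ => ?_⟩, hEd⟩
    have : x ∈ cyl u ∩ Z := ⟨(hE hx).2, hxZ⟩
    rw [hu] at this
    exact this

end Pool.Agent.Q183.Games
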